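import Mathlib
import Pool.Agent.Zk12.BS.Stm
import Pool.Agent.W620.SC.Norm

/-!
# Kummer theory along a section
-/

set_option autoImplicit false
set_option linter.all false

open NumberField IsDedekindDomain

namespace Pool.Agent.Zk94.BS

open Pool.Agent.TH954 Pool.Agent.W620.SC Pool.Agent.W623.SecC Pool.Agent.Y157.PS

/-- Hilbert 90 along a section: an element `h` such that `h ^ n` is fixed -/
theorem kummer_sec {F M B : Type} [Field F] [Field M] [Field B] [Algebra F M] [Algebra ℚ M]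
    [Algebra ℚ B] [Algebra.IsAlgebraic F M] [IsAlgClosure ℚ B] (s : GalSection ℚ F M B)
    {h : M} (h0 : h ≠ 0) {n : ℕ} (hn : 0 < n) (hfix : ∀ g, s.s g (h ^ n) = h ^ n) :
    ∃ (c : ℚ) (w : M), (∀ g, s.s g w = w) ∧ h ^ n = algebraMap ℚ M c * w ^ n := by
  haveI : IsAlgClosed B := IsAlgClosure.isAlgClosed ℚ
  haveI : Algebra.IsAlgebraic ℚ B := IsAlgClosure.isAlgebraic
  haveI : CharZero B := charZero_of_injective_algebraMap (algebraMap ℚ B).injective
  haveI : IsGalois ℚ B := ⟨⟩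
  obtain ⟨ra, hra⟩ : ∃ ra : (B ≃ₐ[ℚ] B) →* RingAut M, ∀ g z, ra g z = s.s g z :=
    ⟨{ toFun := fun g => (s.s g).toRingEquiv
       map_one' := by
        apply RingEquiv.ext
        intro z
        change s.s 1 z = z
        rw [map_one]; rfl
       map_mul' := fun g g' => by
        apply RingEquiv.ext
        intro z
        change s.s (g * g') z = s.s g (s.s g' z)
        rw [map_mul]; rfl }, fun g z => rfl⟩
  -- a finite level
  have h1 : {g : B ≃ₐ[ℚ] B | s.s g h = h} ∈ nhds (1 : B ≃ₐ[ℚ] B) := by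
    have h2 := s.cont.continuousAt (x := 1)
    rw [ContinuousAt, map_one] at h2
    exact h2 (fix_nhds h)
  rw [krullTopology_mem_nhds_one_iff] at h1
  obtain ⟨E, hE, hEh⟩ := h1
  haveI := hE
  obtain ⟨β, hβ0, hβ⟩ := Pool.Agent.W620.SC.exists_fixed_multiple ra (s.j : B →+* M)
    (fun σ a => by rw [hra]; exact s.sec σ a) ⊤ h h0 (by
      intro σ _
      have h1 : (s.s σ h / h) ^ n = 1 := by
        rw [div_pow, ← map_pow, hfix σ, div_self (pow_ne_zero _ h0)]
      obtain ⟨ζ, hζ⟩ := Pool.Agent.W620.SC.root_mem (s.j : B →+* M) hn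
        (h := s.s σ h / h) (b := 1) (by rw [h1, map_one])
      refine ⟨ζ, ?_⟩
      rw [hζ, hra, div_mul_cancel₀ _ h0]) E (by
      intro σ hσ
      rw [hra]
      exact hEh hσ)
  have hβ' : ∀ g, s.s g (s.j β * h) = s.j β * h := fun g => by
    have := hβ g (Subgroup.mem_top g)
    rwa [hra] at this
  have hjβ : s.j β ≠ 0 := (map_ne_zero _).2 hβ0
  have hc : ∀ g : B ≃ₐ[ℚ] B, g (β ^ n) = β ^ n := by
    intro g
    apply (s.j : B →+* M).injective
    change s.j (g (β ^ n)) = s.j (β ^ n)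
    rw [← s.sec g]
    have e : s.j (β ^ n) = (s.j β * h) ^ n / h ^ n := by
      rw [mul_pow, map_pow, mul_div_assoc, div_self (pow_ne_zero _ h0), mul_one]
    rw [e, map_div₀, hfix g, map_pow, hβ' g]
  obtain ⟨c, hc⟩ := IntermediateField.mem_bot.1
    (Pool.Agent.W620.SC.mem_of_fixed (⊥ : IntermediateField ℚ B) (fun σ _ => hc σ))
  refine ⟨c⁻¹, s.j β * h, hβ', ?_⟩
  have e : algebraMap ℚ M c = s.j β ^ n := by
    rw [← s.j.commutes c, hc, map_pow]
  rw [map_inv₀, e, mul_pow, inv_mul_cancel_left₀ (pow_ne_zero _ hjβ)]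

theorem ku2 : Pool.Agent.Zk12.BS.S_KU2 := by
  intro F Ω M B _ _ _ _ _ _ _ _ _ _ _ _ _ _ U ι hU hι s f hf hfU n hn
  haveI : IsAlgClosed Ω := IsAlgClosure.isAlgClosed F
  haveI : Algebra.IsAlgebraic F Ω := IsAlgClosure.isAlgebraic
  haveI : Algebra.IsAlgebraic F M := Algebra.IsAlgebraic.of_injective ι ι.injective
  haveI : CharZero F := charZero_of_injective_algebraMap (algebraMap ℚ F).injective
  obtain ⟨α, hα⟩ := exists_root_unramified (k := ℚ) U hU hn
    (algebraMap F (unramified F Ω U) f) (by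
      intro _ W hW
      obtain ⟨-, h1, h2⟩ := hfU _ hW
      refine ⟨1, one_mem _, one_ne_zero, ?_, ?_⟩
      · rw [one_pow, div_one]
        exact h1
      · rw [one_pow, one_div]
        have h3 : algebraMap F Ω f⁻¹ ∈ W := h2
        rw [map_inv₀] at h3
        exact h3)
  obtain ⟨h, hh⟩ : ∃ h, ι h = (α : Ω) := by
    have h3 : (α : Ω) ∈ ι.fieldRange := by
      rw [hι]
      exact α.2
    exact h3
  have hhn : h ^ n = algebraMap F M f := by
    apply ι.injective
    change ι (h ^ n) = ι (algebraMap F M f)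
    rw [map_pow, hh, ι.commutes]
    have h4 := congrArg (fun z : unramified F Ω U => (z : Ω)) hα
    exact h4
  have hf' : algebraMap F M f ≠ 0 := (map_ne_zero _).2 hf
  have h0 : h ≠ 0 := by
    rintro rfl
    rw [zero_pow hn.ne'] at hhn
    exact hf' hhn.symm
  obtain ⟨c, w, hw, hcw⟩ := kummer_sec s h0 hn (fun g => by
    rw [hhn]
    exact (s.s g).commutes f)
  exact ⟨c, w, hw, by rw [← hhn]; exact hcw⟩

/-- Kummer theory for birational sections -/
theorem ku : Pool.Agent.Zk12.BS.S_KU := by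
  intro F Ω B _ _ _ _ _ _ _ _ _ _ s z hz hz0 n hn
  haveI : IsAlgClosed Ω := IsAlgClosure.isAlgClosed F
  haveI : Algebra.IsAlgebraic F Ω := IsAlgClosure.isAlgebraic
  obtain ⟨h, hh⟩ := IsAlgClosed.exists_pow_nat_eq z hn
  have h0 : h ≠ 0 := by
    rintro rfl
    rw [zero_pow hn.ne'] at hh
    exact hz0 hh.symm
  obtain ⟨c, w, hw, hcw⟩ := kummer_sec s h0 hn (fun g => by rw [hh]; exact hz g)
  exact ⟨c, w, hw, by rw [← hh]; exact hcw⟩

end Pool.Agent.Zk94.BS
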