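import Mathlib

/-!
# Numbers for the unit trick
-/

set_option autoImplicit false
set_option linter.all false

namespace Pool.Agent.Zk94.BS

theorem exists_root_nat (n : ℕ) (hn : 0 < n) (a : ℕ) (ha : a ≠ 0)
    (h : ∀ q : ℕ, q.Prime → n ∣ a.factorization q) : ∃ r : ℕ, a = r ^ n := by
  classical
  obtain ⟨f, hf⟩ : ∃ f : ℕ →₀ ℕ, f = a.factorization.mapRange (fun e => e / n) (Nat.zero_div n) :=
    ⟨_, rfl⟩
  have hsup : ∀ q ∈ f.support, q.Prime := by
    intro q hq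
    by_contra hne
    rw [Finsupp.mem_support_iff, hf, Finsupp.mapRange_apply,
      Nat.factorization_eq_zero_of_not_prime _ hne, Nat.zero_div] at hq
    exact hq rfl
  have hfac : (f.prod fun q e => q ^ e).factorization = f :=
    Nat.prod_pow_factorization_eq_self hsup
  have h0 : (f.prod fun q e => q ^ e) ≠ 0 := by
    rw [Finsupp.prod]
    exact Finset.prod_ne_zero_iff.2 fun q hq => pow_ne_zero _ (hsup q hq).ne_zero
  refine ⟨f.prod fun q e => q ^ e, Nat.eq_of_factorization_eq ha (pow_ne_zero _ h0) fun q => ?_⟩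
  rw [Nat.factorization_pow, hfac, Finsupp.smul_apply, hf, Finsupp.mapRange_apply, smul_eq_mul]
  by_cases hq : q.Prime
  · exact (Nat.mul_div_cancel' (h q hq)).symm
  · rw [Nat.factorization_eq_zero_of_not_prime _ hq, Nat.zero_div, mul_zero]

theorem exists_root_rat (n : ℕ) (hn : 0 < n) (u : ℚ) (hu : u ≠ 0)
    (h : ∀ (q : ℕ) [Fact q.Prime], (n : ℤ) ∣ padicValRat q u) :
    ∃ (ε : ℤ) (b : ℚ), (ε = 1 ∨ ε = -1) ∧ u = ε * b ^ n := by
  have hnum : u.num ≠ 0 := Rat.num_ne_zero.2 hu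
  have hcop : Nat.Coprime u.num.natAbs u.den := u.reduced
  have key : ∀ q : ℕ, q.Prime → n ∣ u.num.natAbs.factorization q ∧ n ∣ u.den.factorization q := by
    intro q hq
    haveI : Fact q.Prime := ⟨hq⟩
    have h1 := h q
    rw [padicValRat_def, padicValInt] at h1
    rw [Nat.factorization_def _ hq, Nat.factorization_def _ hq]
    by_cases hd : q ∣ u.den
    · have h2 : ¬ q ∣ u.num.natAbs := fun h3 => hq.one_lt.ne' (Nat.dvd_one.1 (by
        rw [← hcop]; exact Nat.dvd_gcd h3 hd))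
      have h3 : padicValNat q u.num.natAbs = 0 := padicValNat.eq_zero_of_not_dvd h2
      rw [h3] at h1 ⊢
      refine ⟨dvd_zero _, ?_⟩
      rw [Nat.cast_zero, zero_sub, dvd_neg] at h1
      exact_mod_cast h1
    · have h3 : padicValNat q u.den = 0 := padicValNat.eq_zero_of_not_dvd hd
      rw [h3] at h1 ⊢
      refine ⟨?_, dvd_zero _⟩
      rw [Nat.cast_zero, sub_zero] at h1
      exact_mod_cast h1
  obtain ⟨a, ha⟩ := exists_root_nat n hn _ (Int.natAbs_ne_zero.2 hnum) fun q hq => (key q hq).1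
  obtain ⟨d, hd⟩ := exists_root_nat n hn _ u.den_nz fun q hq => (key q hq).2
  have hu' : u = (u.num : ℚ) / (u.den : ℚ) := (Rat.num_div_den u).symm
  rcases Int.natAbs_eq u.num with h1 | h1
  · refine ⟨1, (a : ℚ) / d, Or.inl rfl, ?_⟩
    rw [hu', h1, ha, div_pow]
    conv_lhs => rw [hd]
    push_cast
    ring
  · refine ⟨-1, (a : ℚ) / d, Or.inr rfl, ?_⟩
    rw [hu', h1, ha, div_pow]
    conv_lhs => rw [hd]
    push_cast
    ring

/-- powers of units of `ℤ_[p]` -/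
theorem pow_congr (p : ℕ) [Fact p.Prime] (k n : ℕ) (hn : Nat.totient (p ^ k) ∣ n) (e : ℚ_[p])
    (he : ‖e‖ = 1) : ∃ z : ℤ_[p], (z : ℚ_[p]) = e ^ n ∧ PadicInt.toZModPow k z = 1 := by
  obtain ⟨y, hy⟩ : ∃ y : ℤ_[p], (y : ℚ_[p]) = e := ⟨⟨e, he.le⟩, rfl⟩
  have hyu : IsUnit y := by
    rw [PadicInt.isUnit_iff, PadicInt.norm_def, hy]
    exact he
  refine ⟨y ^ n, by push_cast; rw [hy], ?_⟩
  rw [map_pow]
  obtain ⟨u, hu⟩ := hyu.map (PadicInt.toZModPow (p := p) k)
  rw [← hu]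
  obtain ⟨m, rfl⟩ := hn
  rw [pow_mul, ← Units.val_pow_eq_pow_val, ZMod.pow_totient, Units.val_one, one_pow]

theorem valuation_pow' (p : ℕ) [Fact p.Prime] (e : ℚ_[p]) (n : ℕ) :
    (e ^ n).valuation = n * e.valuation := by
  exact Padic.valuation_pow e n

theorem norm_one_of_val (p : ℕ) [Fact p.Prime] (e : ℚ_[p]) (he : e ≠ 0) (h : e.valuation = 0) :
    ‖e‖ = 1 := by
  rw [Padic.norm_eq_zpow_neg_valuation he, h, neg_zero, zpow_zero]

theorem val_of_norm_one (p : ℕ) [Fact p.Prime] (e : ℚ_[p]) (he : e ≠ 0) (h : ‖e‖ = 1) :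
    e.valuation = 0 := by
  rw [Padic.norm_eq_zpow_neg_valuation he] at h
  have hp : (1 : ℝ) < p := by exact_mod_cast (Fact.out : p.Prime).one_lt
  have := (zpow_eq_one_iff_right₀ (by positivity) hp.ne').1 h
  omega

/-- at the place `2` -/
theorem two_step (m : ℤ) (K n : ℕ) (hK : 3 ^ m.natAbs + 1 < 2 ^ K)
    (hn : Nat.totient (2 ^ K) ∣ n) (ε : ℤ) (hε : ε = 1 ∨ ε = -1) (e : ℚ_[2]) (he : ‖e‖ = 1)
    (h : (ε : ℚ_[2]) * (3 : ℚ_[2]) ^ m * e ^ n = 1) : m = 0 ∧ ε = 1 := by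
  obtain ⟨z, hz, hz1⟩ := pow_congr 2 K n hn e he
  rw [← hz] at h
  have hεε : (ε : ℤ) * ε = 1 := by rcases hε with rfl | rfl <;> norm_num
  have key : (ε : ℤ_[2]) * 3 ^ m.natAbs * z = 1 ∨ (ε : ℤ_[2]) * z = 3 ^ m.natAbs := by
    obtain ⟨M, hM | hM⟩ := m.eq_nat_or_neg
    · left
      subst hM
      apply Subtype.ext
      rw [zpow_natCast] at h
      rw [Int.natAbs_natCast]
      push_cast
      exact h
    · right
      subst hM
      rw [zpow_neg, zpow_natCast] at h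
      rw [Int.natAbs_neg, Int.natAbs_natCast]
      apply Subtype.ext
      push_cast
      have h3 : (3 : ℚ_[2]) ^ M ≠ 0 := pow_ne_zero _ (by norm_num)
      field_simp at h
      exact h
  have hdvd : ((2 ^ K : ℕ) : ℤ) ∣ ε * 3 ^ m.natAbs - 1 := by
    rw [← ZMod.intCast_eq_intCast_iff_dvd_sub]
    push_cast
    rcases key with h1 | h1
    · have h2 := congrArg (PadicInt.toZModPow (p := 2) K) h1
      rw [map_mul, map_mul, map_pow, hz1, mul_one, map_one, map_intCast, map_ofNat] at h2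
      exact h2.symm
    · have h2 := congrArg (PadicInt.toZModPow (p := 2) K) h1
      rw [map_mul, hz1, mul_one, map_pow, map_intCast, map_ofNat] at h2
      rw [← h2, ← Int.cast_mul, hεε, Int.cast_one]
  have h0 : ε * 3 ^ m.natAbs - 1 = 0 := by
    refine Int.eq_zero_of_abs_lt_dvd hdvd ?_
    have h3 : (0 : ℤ) < 3 ^ m.natAbs := by positivity
    have hK' : (3 : ℤ) ^ m.natAbs + 1 < ((2 ^ K : ℕ) : ℤ) := by exact_mod_cast hK
    rcases hε with rfl | rfl
    · rw [abs_lt]; constructor <;> linarith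
    · rw [abs_lt]; constructor <;> linarith
  have h3 : (0 : ℤ) < 3 ^ m.natAbs := by positivity
  rcases hε with rfl | rfl
  · refine ⟨?_, rfl⟩
    by_contra hm
    have h4 : (1 : ℤ) < 3 ^ m.natAbs := one_lt_pow₀ (by norm_num) (Int.natAbs_ne_zero.2 hm)
    linarith
  · linarith

end Pool.Agent.Zk94.BS
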