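import Mathlib
import Pool.Agent.Zk12.BS.Stm
import Pool.Agent.Zk94.BS.Num

/-!
# The unit trick
-/

set_option autoImplicit false
set_option linter.all false

open NumberField IsDedekindDomain

namespace Pool.Agent.Zk94.BS

open Pool.Agent.TH954

/-- the value of a root -/
theorem val_root {L C : Type} [Field L] [Field C] [Algebra ℚ L] [Algebra ℚ C] [CharZero C]
    (pl : Plc ℚ L C) {f w : L} {c : ℚ} (hc : c ≠ 0) {n : ℕ} (hn : 0 < n)
    (h : f = algebraMap ℚ L c * w ^ n) {a : C} (ha : pl.val f a) :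
    ∃ e : C, pl.val w e ∧ algebraMap ℚ C c * e ^ n = a := by
  have hc' : algebraMap ℚ L c ≠ 0 := (map_ne_zero _).2 hc
  have hcC : algebraMap ℚ C c ≠ 0 := (map_ne_zero _).2 hc
  have h1 : pl.val (f * (algebraMap ℚ L c)⁻¹) (a * (algebraMap ℚ C c)⁻¹) :=
    ha.mul ((Plc.val_alg c).inv hcC)
  have h2 : f * (algebraMap ℚ L c)⁻¹ = w ^ n := by
    rw [h, mul_comm (algebraMap ℚ L c), mul_inv_cancel_right₀ hc']
  rw [h2] at h1
  obtain ⟨e, he⟩ := Plc.val_of_mem (Plc.mem_of_pow_mem hn h1.mem)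
  refine ⟨e, he, ?_⟩
  rw [(he.pow n).unique h1, mul_comm, inv_mul_cancel_right₀ hcC]

theorem ut : Pool.Agent.Zk12.BS.S_UT := by
  intro L _ _ _ pl f hf hk hv p hp
  haveI : Fact (Nat.Prime 2) := ⟨Nat.prime_two⟩
  haveI : Fact (Nat.Prime 3) := ⟨Nat.prime_three⟩
  obtain ⟨cp, hcp0, hcpv, -, -⟩ := hv p
  obtain ⟨c3, hc30, hc3v, -, -⟩ := hv 3
  obtain ⟨c2, -, hc2v, -, hc2⟩ := hv 2
  rw [hc2 rfl] at hc2v
  obtain ⟨m, hm⟩ : ∃ m : ℤ, m = c3.valuation := ⟨_, rfl⟩
  obtain ⟨K, hK⟩ : ∃ K : ℕ, 3 ^ m.natAbs + 1 < 2 ^ K :=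
    ⟨3 ^ m.natAbs + 1, Nat.lt_two_pow_self⟩
  have key : ∀ n : ℕ, 0 < n → Nat.totient (2 ^ K) ∣ n → ∃ w : L, f = w ^ n := by
    intro n hn hKn
    obtain ⟨c, w, hcw⟩ := hk n hn
    have hc : c ≠ 0 := by
      rintro rfl
      rw [map_zero, zero_mul] at hcw
      exact hf hcw
    have hdiv : ∀ (q : ℕ) [Fact q.Prime], (n : ℤ) ∣ padicValRat q (c * 3 ^ (-m)) := by
      intro q hq
      obtain ⟨cq, hcq0, hcqv, hcq5, hcq2⟩ := hv q
      obtain ⟨e, -, he⟩ := val_root (pl q) hc hn hcw hcqv
      have he0 : e ≠ 0 := by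
        rintro rfl
        rw [zero_pow hn.ne', mul_zero] at he
        exact hcq0 he.symm
      have hcC : (c : ℚ_[q]) ≠ 0 := by exact_mod_cast hc
      have h1 := congrArg Padic.valuation he
      rw [eq_ratCast, Padic.valuation_mul hcC (pow_ne_zero _ he0), valuation_pow',
        Padic.valuation_ratCast] at h1
      have h3 : padicValRat q (c * 3 ^ (-m)) = padicValRat q c - m * padicValRat q 3 := by
        rw [padicValRat.mul hc (zpow_ne_zero _ (by norm_num)), padicValRat.zpow]
        ring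
      rw [h3]
      have h4 : cq.valuation - m * padicValRat q 3 = 0 := by
        by_cases hq3 : q = 3
        · subst hq3
          have h5 : c3 = cq := hc3v.unique hcqv
          rw [← h5, ← hm]
          have : padicValRat 3 3 = 1 := by
            have := padicValRat.self (p := 3) (by norm_num)
            exact_mod_cast this
          rw [this]; ring
        · have h5 : padicValRat q 3 = 0 := by
            have h6 : ¬ q ∣ 3 := fun h6 => hq3 ((Nat.prime_dvd_prime_iff_eq hq.out
              Nat.prime_three).1 h6)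
            have h7 : padicValRat q ((3 : ℕ) : ℚ) = 0 := by
              rw [padicValRat.of_nat, padicValNat.eq_zero_of_not_dvd h6, Nat.cast_zero]
            exact_mod_cast h7
          rw [h5, mul_zero, sub_zero]
          by_cases hq2 : q = 2
          · rw [hcq2 hq2, Padic.valuation_one]
          · have hq5 : 5 ≤ q := by
              have h6 := hq.out.two_le
              by_contra hlt
              have h7 : q = 4 := by omega
              rw [h7] at hq
              exact absurd hq.out (by norm_num)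
            exact val_of_norm_one q cq hcq0 (hcq5 hq5)
      have h5 : padicValRat q c - m * padicValRat q 3 = n * (-e.valuation) := by
        linear_combination h1 + h4
      rw [h5]
      exact dvd_mul_right _ _
    obtain ⟨ε, b, hε, hb⟩ := exists_root_rat n hn _ (mul_ne_zero hc
      (zpow_ne_zero _ (by norm_num))) hdiv
    have hcb : c = ε * 3 ^ m * b ^ n := by
      have h3 : (3 : ℚ) ^ m ≠ 0 := zpow_ne_zero _ (by norm_num)
      rw [zpow_neg] at hb
      have : c = c * (3 ^ m)⁻¹ * 3 ^ m := (inv_mul_cancel_right₀ h3 c).symm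
      rw [this, hb]
      ring
    have hb0 : b ≠ 0 := by
      rintro rfl
      rw [zero_pow hn.ne', mul_zero] at hcb
      exact hc hcb
    obtain ⟨e, -, he⟩ := val_root (pl 2) hc hn hcw hc2v
    have he0 : e ≠ 0 := by
      rintro rfl
      rw [zero_pow hn.ne', mul_zero] at he
      exact zero_ne_one he
    have hbe0 : (b : ℚ_[2]) * e ≠ 0 := mul_ne_zero (by exact_mod_cast hb0) he0
    have he' : (ε : ℚ_[2]) * (3 : ℚ_[2]) ^ m * ((b : ℚ_[2]) * e) ^ n = 1 := by
      rw [← he, eq_ratCast, hcb]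
      push_cast
      ring
    have hε0 : (ε : ℚ_[2]) ≠ 0 := by
      rcases hε with rfl | rfl <;> norm_num
    have h30 : (3 : ℚ_[2]) ^ m ≠ 0 := zpow_ne_zero _ (by norm_num)
    have hn3 : ‖(3 : ℚ_[2])‖ = 1 := by
      have h6 : ¬ 2 ∣ 3 := by norm_num
      have := (Padic.norm_natCast_eq_one_iff (p := 2) (n := 3)).2 (by norm_num)
      exact_mod_cast this
    have hnε : ‖(ε : ℚ_[2])‖ = 1 := by
      rcases hε with rfl | rfl <;> simp
    have hbe : ‖(b : ℚ_[2]) * e‖ = 1 := by
      have h6 := congrArg norm he'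
      rw [norm_mul, norm_mul, norm_zpow, norm_pow, hn3, hnε, one_zpow, one_mul, one_mul,
        norm_one] at h6
      exact (pow_eq_one_iff_of_nonneg (norm_nonneg _) hn.ne').1 h6
    obtain ⟨hm0, hε1⟩ := two_step m K n hK hKn ε hε _ hbe he'
    refine ⟨algebraMap ℚ L b * w, ?_⟩
    rw [hcw, hcb, hm0, hε1, mul_pow, ← map_pow, zpow_zero]
    push_cast
    rw [one_mul, one_mul]
  -- the value at `p`
  have hval : ∀ n : ℕ, 0 < n → Nat.totient (2 ^ K) ∣ n → ∃ e : ℚ_[p], e ^ n = cp := by
    intro n hn hKn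
    obtain ⟨w, hw⟩ := key n hn hKn
    obtain ⟨e, -, he⟩ := val_root (pl p) (c := 1) one_ne_zero (w := w) hn
      (by rw [hw, map_one, one_mul]) hcpv
    exact ⟨e, by rw [← he, map_one, one_mul]⟩
  have htot : ∀ (a k : ℕ), 0 < a → 0 < Nat.totient (a ^ k) := fun a k ha =>
    Nat.totient_pos.2 (pow_pos ha k)
  have hcong : ∀ k : ℕ, ∃ z : ℤ_[p], (z : ℚ_[p]) = cp ∧ PadicInt.toZModPow k z = 1 := by
    intro k
    obtain ⟨N, hN⟩ : ∃ N : ℕ, N = Nat.totient (2 ^ K) * (Nat.totient (p ^ k) *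
      (cp.valuation.natAbs + 1)) := ⟨_, rfl⟩
    have hN0 : 0 < N := by
      rw [hN]
      exact Nat.mul_pos (htot 2 K two_pos) (Nat.mul_pos (htot p k hp.out.pos) (Nat.succ_pos _))
    obtain ⟨e, he⟩ := hval N hN0 (by rw [hN]; exact dvd_mul_right _ _)
    have he0 : e ≠ 0 := by
      rintro rfl
      rw [zero_pow hN0.ne'] at he
      exact hcp0 he.symm
    have h1 := congrArg Padic.valuation he
    rw [valuation_pow'] at h1
    have h2 : cp.valuation = 0 := by
      refine Int.eq_zero_of_abs_lt_dvd (m := (N : ℤ)) ⟨_, h1.symm⟩ ?_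
      rw [← Int.natCast_natAbs]
      have h3 : cp.valuation.natAbs < N := by
        rw [hN]
        calc cp.valuation.natAbs < cp.valuation.natAbs + 1 := Nat.lt_succ_self _
          _ ≤ Nat.totient (p ^ k) * (cp.valuation.natAbs + 1) :=
            Nat.le_mul_of_pos_left _ (htot p k hp.out.pos)
          _ ≤ _ := Nat.le_mul_of_pos_left _ (htot 2 K two_pos)
      exact_mod_cast h3
    rw [h2] at h1
    have h3 : e.valuation = 0 := by
      rcases mul_eq_zero.1 h1 with h4 | h4
      · exact absurd h4 (by exact_mod_cast hN0.ne')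
      · exact h4
    have h4 := pow_congr p k N (by
      rw [hN]
      exact dvd_mul_of_dvd_right (dvd_mul_right _ _) _) e (norm_one_of_val p e he0 h3)
    rwa [he] at h4
  obtain ⟨z, hz, -⟩ := hcong 0
  have hz1 : z = 1 := by
    apply PadicInt.ext_of_toZModPow.1
    intro k
    obtain ⟨z', hz', h5⟩ := hcong k
    have : z = z' := Subtype.ext (hz.trans hz'.symm)
    rw [this, h5, map_one]
  have hcp1 : cp = 1 := by rw [← hz, hz1]; rfl
  rw [← hcp1]
  exact hcpv

end Pool.Agent.Zk94.BS
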