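import Mathlib
import Pool.Agent.TH213.SEL.Bir
import Pool.Agent.TH954.SEt2
import Pool.Agent.Y158.GR.Gen

/-!
# Sections which lift to a field containing the roots of all elements, and rational places

`M ⊆ N` are Galois extensions of the function field `F`, `N` contains the `n`-th roots of all elements
of `M`.  A section for `M` which lifts to a section for `N` which is given by places over all
completions at which one and the same function `t ≠ 0` vanishes comes from a rational place at which
`t` vanishes.  (The argument is that of `Pool.Agent.TH954`: only the elements `u - a`, `u ∈ M`, are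
written as `c g ^ l`.)
-/

set_option autoImplicit false
set_option linter.all false

open IsDedekindDomain NumberField

namespace Pool.Agent.Zk94.BS

open Pool.Agent.TH954

section general

variable {K : Type} [Field K] [CharZero K] {N : Type} [Field N] [Algebra K N] (A : SAct K N)

/-- **Kummer theory** for one element which has an `n`-th root -/
theorem kummer_root {f : N} (hf : f ∈ A.fix) (hf0 : f ≠ 0) {n : ℕ} (hn : 0 < n)
    (hr : ∃ w : N, w ^ n = f) :
    ∃ c : K, c ≠ 0 ∧ ∃ g ∈ A.fix, f = algebraMap K N c * g ^ n := by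
  classical
  have : IsGalois K (AlgebraicClosure K) := ⟨⟩
  obtain ⟨w, hw⟩ := hr
  have hw0 : w ≠ 0 := by
    rintro rfl
    rw [zero_pow hn.ne'] at hw
    exact hf0 hw.symm
  obtain ⟨E, hE, hEw⟩ := A.cont w
  obtain ⟨β, hβ0, hβ⟩ := Pool.Agent.W620.SC.exists_fixed_multiple A.ra
    (A.j : AlgebraicClosure K →+* N) (fun σ a => A.hj σ a) ⊤ w hw0 (by
      intro σ _
      have h1 : (A.s σ w / w) ^ n = 1 := by
        rw [div_pow, ← map_pow, hw, hf σ, div_self hf0]
      obtain ⟨ζ, hζ⟩ := Pool.Agent.W620.SC.root_mem (A.j : AlgebraicClosure K →+* N) hn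
        (h := A.s σ w / w) (b := 1) (by rw [h1, map_one])
      refine ⟨ζ, ?_⟩
      rw [hζ]
      change A.s σ w = A.s σ w / w * w
      rw [div_mul_cancel₀ _ hw0]) E (by
      intro σ hσ
      exact hEw σ (fun z hz => (IntermediateField.mem_fixingSubgroup_iff _ _).1 hσ z hz))
  have hg : A.j β * w ∈ A.fix := fun τ => hβ τ (Subgroup.mem_top τ)
  have hβn : A.j (β ^ n) ∈ A.fix := by
    have e : A.j (β ^ n) = (A.j β * w) ^ n / f := by
      rw [mul_pow, hw, map_pow, mul_div_assoc, div_self hf0, mul_one]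
    rw [e]
    exact div_mem (pow_mem hg n) hf
  obtain ⟨c, hc⟩ := A.fix_j hβn
  have hc0 : c ≠ 0 := by
    rintro rfl
    rw [map_zero] at hc
    exact pow_ne_zero n hβ0 hc.symm
  refine ⟨c⁻¹, inv_ne_zero hc0, _, hg, ?_⟩
  have e : algebraMap K N c = A.j β ^ n := by
    rw [← A.j.commutes c, hc, map_pow]
  rw [map_inv₀, e, mul_pow, hw, inv_mul_cancel_left₀]
  exact pow_ne_zero _ ((map_ne_zero A.j).2 hβ0)

end general

section

variable {K : Type} [Field K] [NumberField K]
variable {M N : Type} [Field M] [Field N] [Algebra K M] [Algebra K N] {A : SAct K M}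
  {A' : SAct K N}
  {pl : ∀ v : HeightOneSpectrum (𝓞 K), Plc K N (AlgebraicClosure (v.adicCompletion K))}

/-- the restrictions of the places -/
noncomputable def resF (φ : M →ₐ[K] N)
    (pl : ∀ v : HeightOneSpectrum (𝓞 K), Plc K N (AlgebraicClosure (v.adicCompletion K)))
    (v : HeightOneSpectrum (𝓞 K)) : Plc K M (AlgebraicClosure (v.adicCompletion K)) :=
  Pool.Agent.Y158.GR.resPlc (φ : M →+* N) (fun c => φ.commutes c) (pl v)

lemma resF_val {φ : M →ₐ[K] N} {v : HeightOneSpectrum (𝓞 K)} {x : M}
    {c : AlgebraicClosure (v.adicCompletion K)} :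
    (resF φ pl v).val x c ↔ (pl v).val (φ x) c := Iff.rfl

lemma resF_mem {φ : M →ₐ[K] N} {v : HeightOneSpectrum (𝓞 K)} {x : M} :
    x ∈ (resF φ pl v).W ↔ φ x ∈ (pl v).W := Iff.rfl

/-- elements of `DSet` have a rational value -/
theorem exists_rat (φ : M →ₐ[K] N) (hA : ∀ τ x, φ (A.s τ x) = A'.s τ (φ x))
    (hr : ∀ (z : M) (n : ℕ), 0 < n → ∃ w : N, w ^ n = φ z) (hpl : ∀ v, GeoPlc A' (pl v))
    {u : M} (hu : DSet A (resF φ pl) u) : ∃ v, Rat (resF φ pl) u v := by
  classical
  obtain ⟨huf, huW, R, hR⟩ := hu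
  obtain ⟨R', hRR', hR'⟩ := exists_stable R
  obtain ⟨l, a, hl, hob⟩ := obstruct (R'.filter (fun θ =>
    ∃ σ : AlgebraicClosure K ≃ₐ[K] AlgebraicClosure K, σ θ ≠ θ)) (by
      intro σ θ hθ
      rw [Finset.mem_filter] at hθ ⊢
      obtain ⟨h1, σ', h2⟩ := hθ
      refine ⟨hR' σ θ h1, σ * σ' * σ⁻¹, fun h3 => h2 ?_⟩
      have h4 : (σ * σ' * σ⁻¹) (σ θ) = σ (σ' θ) := by
        change σ (σ' (σ.symm (σ θ))) = _
        rw [σ.symm_apply_apply]
      rw [h4] at h3
      exact σ.injective h3) (fun θ hθ => (Finset.mem_filter.1 hθ).2)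
  by_cases hua : u = algebraMap K M a
  · obtain ⟨v, -⟩ := hob 1 one_ne_zero
    refine ⟨v, a, ?_⟩
    rw [hua]
    exact Plc.val_alg a
  · have hφf : φ (u - algebraMap K M a) ∈ A'.fix := by
      intro τ
      rw [← hA]
      congr 1
      exact sub_mem huf (A.fix.algebraMap_mem a) τ
    obtain ⟨c, hc, g, hg, hfg⟩ := kummer_root A' (f := φ (u - algebraMap K M a)) hφf
      ((map_ne_zero φ).2 (sub_ne_zero.2 hua)) (n := l) (by omega) (hr _ l (by omega))
    obtain ⟨v, hv⟩ := hob c hc
    refine ⟨v, ?_⟩
    have : CharZero (v.adicCompletion K) :=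
      charZero_of_injective_algebraMap (algebraMap K (v.adicCompletion K)).injective
    obtain ⟨β, hβ, hval⟩ := hR v (huW v)
    by_cases hfix : ∀ σ : AlgebraicClosure K ≃ₐ[K] AlgebraicClosure K, σ β = β
    · obtain ⟨c', hc'⟩ := base_of_fixed hfix
      refine ⟨c', ?_⟩
      rw [← hc'] at hval
      rw [← ((resF φ pl v).iot A.j).commutes c']
      exact hval
    · exfalso
      push Not at hfix
      have hgl : g ^ l = φ (u - algebraMap K M a) * algebraMap K N c⁻¹ := by
        rw [hfg, map_inv₀]
        field_simp [(map_ne_zero (algebraMap K N)).2 hc]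
      have hgW : g ∈ (pl v).W := by
        apply Plc.mem_of_pow_mem (n := l) (by omega)
        rw [hgl, map_sub, φ.commutes]
        exact mul_mem (sub_mem (huW v) ((pl v).alg_mem a)) ((pl v).alg_mem _)
      obtain ⟨z, hz⟩ := value_base A' (hpl v) hg hgW
      refine hv ((resF φ pl v).iot A.j) β (Finset.mem_filter.2 ⟨hRR' hβ, hfix⟩) z ?_
      have h1 : (resF φ pl v).val (u - algebraMap K M a)
          ((resF φ pl v).iot A.j β -
            algebraMap K (AlgebraicClosure (v.adicCompletion K)) a) :=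
        hval.sub (Plc.val_alg a)
      have h2 : (pl v).val (algebraMap K N c * g ^ l)
          (algebraMap K (AlgebraicClosure (v.adicCompletion K)) c *
            (algebraMap (v.adicCompletion K) (AlgebraicClosure (v.adicCompletion K)) z) ^ l) :=
        (Plc.val_alg c).mul (Plc.val.pow ⟨hgW, hz.symm⟩ l)
      rw [← hfg] at h2
      have h3 := Plc.val.unique (resF_val.1 h1) h2
      rw [map_sub, ((resF φ pl v).iot A.j).commutes a, h3, map_mul, map_pow,
        ← IsScalarTower.algebraMap_apply]

/-- the ultrafilter, if elements of `DSet` have a rational value -/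
theorem exists_ultra' {pl : ∀ v : HeightOneSpectrum (𝓞 K),
      Plc K M (AlgebraicClosure (v.adicCompletion K))}
    (h : ∀ u, DSet A pl u → ∃ v, Rat pl u v) :
    ∃ U : Ultrafilter (HeightOneSpectrum (𝓞 K)), ∀ u, DSet A pl u →
      ∀ᶠ v in (U : Filter (HeightOneSpectrum (𝓞 K))), Rat pl u v := by
  have : Nonempty {u : M // DSet A pl u} := ⟨⟨0, DSet.zero⟩⟩
  let f : {u : M // DSet A pl u} → Filter (HeightOneSpectrum (𝓞 K)) :=
    fun u => Filter.principal {v | Rat pl u.1 v}
  have hne : (⨅ u, f u).NeBot := by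
    apply Filter.iInf_neBot_of_directed'
    · rintro ⟨u1, h1⟩ ⟨u2, h2⟩
      obtain ⟨u, hu, h⟩ := h1.combine h2
      refine ⟨⟨u, hu⟩, ?_, ?_⟩
      · exact Filter.principal_mono.2 (fun v hv => (h v hv).1)
      · exact Filter.principal_mono.2 (fun v hv => (h v hv).2)
    · rintro ⟨u, hu⟩
      obtain ⟨v, hv⟩ := h u hu
      exact Filter.principal_neBot_iff.2 ⟨v, hv⟩
  refine ⟨Ultrafilter.of (⨅ u, f u), fun u hu => ?_⟩
  have h1 : (Ultrafilter.of (⨅ u, f u) : Filter (HeightOneSpectrum (𝓞 K))) ≤ f ⟨u, hu⟩ :=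
    (Ultrafilter.of_le _).trans (iInf_le f ⟨u, hu⟩)
  exact h1 (Filter.mem_principal_self _)

end

section main

variable {K : Type} [Field K] [NumberField K] {F M N B : Type} [Field F] [Field M] [Field N]
  [Field B] [Algebra K F] [Algebra F M] [Algebra F N] [Algebra K M] [Algebra K N] [Algebra K B]
  [IsScalarTower K F M] [IsScalarTower K F N] [Algebra.IsAlgebraic F M]
  [Algebra.IsAlgebraic F N] [IsAlgClosure K B]

/-- a place which gives the section is compatible with the action -/
lemma geo_of_givenBy (s : GalSection K F N B) {L : Type} [Field L] [Algebra K L]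
    {p : Plc K N (AlgebraicClosure L)} (h : s.GivenBy L p) : GeoPlc (toSAct s) p := by
  intro σ τ hστ x
  refine h σ ((eqv K B).autCongr τ) ?_ x _ ⟨x.2, rfl⟩
  intro z c hc
  obtain ⟨y, rfl⟩ := (eqv K B).surjective z
  have e1 : p.val ((toSAct s).j y) (p.iot (toSAct s).j y) := Plc.val_j _ y
  have e2 : p.val ((toSAct s).j (τ y)) (p.iot (toSAct s).j (τ y)) := Plc.val_j _ (τ y)
  have e3 : s.j ((eqv K B).autCongr τ (eqv K B y)) = (toSAct s).j (τ y) := by
    change s.j (eqv K B (τ ((eqv K B).symm (eqv K B y)))) = _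
    rw [AlgEquiv.symm_apply_apply]
    rfl
  have e4 : p.iot (toSAct s).j y = c := e1.unique hc
  rw [e3, ← e4, ← hστ y]
  exact e2

/-- **Sections which lift.**  Let `φ : M → N` be an embedding over `F` such that all elements of `M`
have `n`-th roots in `N` for all `n`, and let the section `s` for `M` lift to the section `s'` for `N`,
which is given by places over all completions at which one and the same function `t ≠ 0` vanishes.
Then `s` comes from a rational place at which `t` vanishes. -/
theorem cab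
    (hF : ∃ t : F, Transcendental K t ∧
      Algebra.IsAlgebraic (IntermediateField.adjoin K {t}) F)
    (φ : M →ₐ[F] N) (hroot : ∀ (z : M) (n : ℕ), 0 < n → ∃ w : N, w ^ n = φ z)
    (s : GalSection K F M B) (s' : GalSection K F N B)
    (hcomp : ∀ g z, φ (s.s g z) = s'.s g (φ z))
    (pl : ∀ v : HeightOneSpectrum (𝓞 K), Plc K N (AlgebraicClosure (v.adicCompletion K)))
    (hpl : ∀ v, s'.GivenBy (v.adicCompletion K) (pl v))
    {t : F} (ht0 : t ≠ 0) (htv : ∀ v, (pl v).val (algebraMap F N t) 0) :
    ∃ O : ValuationSubring F, t⁻¹ ∉ O ∧ s.ArisesFrom O := by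
  have hcF : CharZero F := charZero_of_injective_algebraMap (algebraMap K F).injective
  have hcM : CharZero M :=
    charZero_of_injective_algebraMap (algebraMap F M).injective
  have hcv : ∀ v : HeightOneSpectrum (𝓞 K), CharZero (v.adicCompletion K) := fun v =>
    charZero_of_injective_algebraMap (algebraMap K (v.adicCompletion K)).injective
  have hcv' : ∀ v : HeightOneSpectrum (𝓞 K), CharZero (AlgebraicClosure (v.adicCompletion K)) :=
    fun v => charZero_of_injective_algebraMap
      (algebraMap (v.adicCompletion K) (AlgebraicClosure (v.adicCompletion K))).injective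
  set A := toSAct s with hA
  set A' := toSAct s' with hA'
  let φK : M →ₐ[K] N := φ.restrictScalars K
  have hφ : ∀ τ x, φK (A.s τ x) = A'.s τ (φK x) := fun τ x => hcomp _ x
  set q := resF φK pl with hq
  have hAF : ∀ (τ : AlgebraicClosure K ≃ₐ[K] AlgebraicClosure K) (x : F),
      A.s τ (algebraMap F M x) = algebraMap F M x :=
    fun τ x => (s.s ((eqv K B).autCongr τ)).commutes x
  have ht00 : algebraMap F M t ≠ 0 := by rwa [Ne, map_eq_zero]
  have htq : ∀ v, (q v).val (algebraMap F M t) 0 := by
    intro v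
    rw [hq, resF_val]
    have : φK (algebraMap F M t) = algebraMap F N t := φ.commutes t
    rw [this]
    exact htv v
  have hx0W : ∀ v, algebraMap F M t⁻¹ ∉ (q v).W := by
    intro v hmem
    rw [map_inv₀] at hmem
    obtain ⟨c, hc⟩ := Plc.val_of_mem hmem
    have h1 := (htq v).mul hc
    rw [mul_inv_cancel₀ ht00, zero_mul] at h1
    have h2 : (q v).val (1 : M) 1 := by
      have := Plc.val_natCast (pl := q v) 1
      rwa [Nat.cast_one, Nat.cast_one] at this
    exact one_ne_zero (h2.unique h1)
  have hfinV : ∀ x, FinVal A q x := by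
    refine finVal_of_alg A q (t := algebraMap F M t) ht00 htq (fun x hx => ?_)
    exact (alg_adjoin_of_dim hF x hx).isAlgebraic _
  obtain ⟨U, hU⟩ := exists_ultra' (A := A) (pl := q)
    (fun u hu => exists_rat (A := A) (A' := A') φK hφ hroot
      (fun v => geo_of_givenBy s' (hpl v)) hu)
  have hfixF : ∀ x : F, algebraMap F M x ∈ A.fix := fun x τ => hAF τ x
  have hst : ∀ (g : B ≃ₐ[K] B) (x : M), x ∈ limW q U → s.s g x ∈ limW q U := by
    intro g x hx
    rw [← toSAct_s s]
    exact limW_stable hU hfinV _ hx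
  have hnt : t⁻¹ ∉ (limW q U).comap (algebraMap F M) := by
    intro h3
    obtain ⟨v, hv⟩ := (mem_limW.1 (ValuationSubring.mem_comap.1 h3)).exists
    exact hx0W v hv
  refine ⟨(limW q U).comap (algebraMap F M), hnt, ⟨?_, ?_, ?_, limW q U, rfl,
    fun g x => ⟨fun h => ?_, hst g x⟩⟩⟩
  · intro htop
    apply hnt
    rw [htop]
    exact ValuationSubring.mem_top t⁻¹
  · intro c
    rw [ValuationSubring.mem_comap, ← IsScalarTower.algebraMap_apply]
    exact alg_mem_limW c
  · intro a ha
    obtain ⟨c, hc⟩ := exists_value hU (hfixF a) (hfinV _) ha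
    refine ⟨c, (ValuationSubring.mem_nonunits_iff_or _).2 ?_⟩
    by_cases h0 : a - algebraMap K F c = 0
    · exact Or.inl h0
    · right
      intro h3
      have h4 := mem_limW.1 (ValuationSubring.mem_comap.1 h3)
      obtain ⟨v, hv1, hv2⟩ := (hc.and h4).exists
      have h5 : (q v).val (algebraMap F M (a - algebraMap K F c)) 0 := by
        have := hv1.sub (Plc.val_alg (pl := q v) c)
        rw [sub_self] at this
        rw [map_sub, ← IsScalarTower.algebraMap_apply]
        exact this
      rw [map_inv₀] at hv2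
      refine Plc.notMem_of_val_inv (pl := q v)
        (x := (algebraMap F M (a - algebraMap K F c))⁻¹)
        (inv_ne_zero ((map_ne_zero _).2 h0)) ?_ hv2
      rw [inv_inv]
      exact h5
  · have h3 := hst g⁻¹ _ h
    have h4 : s.s g⁻¹ (s.s g x) = x := by
      change (s.s g⁻¹ * s.s g) x = x
      rw [← map_mul, inv_mul_cancel, map_one]
      rfl
    rwa [h4] at h3

end main

end Pool.Agent.Zk94.BS
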